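import Pool.Agent.Q97.UM.Stm10
import Pool.Agent.Erdos456.Mertens

/-!
# Project UM5 (helper97), job PRM: convolution with a short prime sum
-/

set_option autoImplicit false
set_option linter.all false

namespace Pool.Agent.Q198.UM

open Finset
open Pool.Agent.Q97.UM

/-- Mertens: `∑_{p ≤ x} (log p)/p ≤ log x + C`, for real `x ≥ 1` -/
theorem mert_le : ∃ C : ℝ, 0 ≤ C ∧ ∀ N : ℕ, 1 ≤ N →
    ∑ p ∈ (Finset.Icc 1 N).filter Nat.Prime, Real.log p / p ≤ Real.log N + C := by
  obtain ⟨C, hC⟩ := Pool.Agent.Erdos456.Mert.mertens_log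
  refine ⟨C, (abs_nonneg _).trans (hC 1 le_rfl), fun N hN => ?_⟩
  have := (abs_le.1 (hC N hN)).2
  linarith

theorem sum_log_primeFactors (k : ℕ) (hk : 1 ≤ k) : ∑ p ∈ k.primeFactors, Real.log p ≤ Real.log k := by
  have h1 : ∏ p ∈ k.primeFactors, p ≤ k := Nat.le_of_dvd hk (Nat.prod_primeFactors_dvd k)
  have h2 : ∏ p ∈ k.primeFactors, (p : ℝ) ≤ k := by
    have := (Nat.cast_le (α := ℝ)).2 h1
    rwa [Nat.cast_prod] at this
  rw [← Real.log_prod (fun p hp => by exact_mod_cast (Nat.prime_of_mem_primeFactors hp).ne_zero)]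
  refine Real.log_le_log (prod_pos fun p hp => ?_) h2
  exact_mod_cast (Nat.prime_of_mem_primeFactors hp).pos

open Classical in
theorem t_PRM : S_PRM := by
  obtain ⟨C, hC0, hC⟩ := mert_le
  have hl2 : 0 < Real.log 2 := Real.log_pos (by norm_num)
  refine ⟨1 + C / Real.log 2, by
    have : 0 ≤ C / Real.log 2 := by positivity
    linarith, fun X M A α c hX hM hA hα hαA hc => ?_⟩
  have hXr : (2 : ℝ) ≤ X := by exact_mod_cast hX
  have hMr : (1 : ℝ) ≤ M := by exact_mod_cast hM
  have hlX : 0 < Real.log X := Real.log_pos (by linarith)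
  have hlX2 : Real.log 2 ≤ Real.log X := Real.log_le_log (by norm_num) hXr
  have hlM : 0 ≤ Real.log M := Real.log_nonneg hMr
  set G : ℕ → ℝ := fun a => if a.Prime ∧ a ≤ X then Real.log a / Real.log X else 0 with hG
  have hG0 : ∀ a, 0 ≤ G a := by
    intro a
    simp only [hG]
    split_ifs with h
    · have : (1 : ℝ) ≤ a := by exact_mod_cast h.1.one_lt.le
      exact div_nonneg (Real.log_nonneg this) hlX.le
    · exact le_rfl
  have hαG : ∀ a, ‖α a‖ ≤ A * G a := by
    intro a
    by_cases h : α a = 0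
    · rw [h, norm_zero]
      exact mul_nonneg hA (hG0 a)
    · have h1 := hα a h
      have h2 : G a = Real.log a / Real.log X := by simp only [hG]; rw [if_pos h1]
      rw [h2]
      exact hαA a
  -- the pointwise bound
  have hpt : ∀ k ∈ Icc 1 (X * M), ‖cv α c k‖ ^ 2 ≤ (1 + Real.log M / Real.log X) *
      (A ^ 2 * ∑ x ∈ k.divisorsAntidiagonal, G x.1 * ‖c x.2‖ ^ 2) := by
    intro k hk
    obtain ⟨hk1, hk2⟩ := mem_Icc.1 hk
    have hkr : (1 : ℝ) ≤ k := by exact_mod_cast hk1
    have h1 : ‖cv α c k‖ ≤ ∑ x ∈ k.divisorsAntidiagonal, A * G x.1 * ‖c x.2‖ := by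
      unfold cv
      refine (norm_sum_le _ _).trans (sum_le_sum fun x _ => ?_)
      rw [norm_mul]
      exact mul_le_mul_of_nonneg_right (hαG x.1) (norm_nonneg _)
    have h2 : (∑ x ∈ k.divisorsAntidiagonal, A * G x.1 * ‖c x.2‖) ^ 2 ≤
        (∑ x ∈ k.divisorsAntidiagonal, G x.1) *
          ∑ x ∈ k.divisorsAntidiagonal, A ^ 2 * (G x.1 * ‖c x.2‖ ^ 2) := by
      refine Finset.sum_sq_le_sum_mul_sum_of_sq_eq_mul _ (fun x _ => hG0 _) (fun x _ => ?_) fun x _ => ?_
      · have := hG0 x.1
        positivity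
      · ring
    have h3 : ∑ x ∈ k.divisorsAntidiagonal, G x.1 ≤ 1 + Real.log M / Real.log X := by
      have h4 : ∑ x ∈ k.divisorsAntidiagonal, G x.1 = ∑ a ∈ k.divisors, G a :=
        Nat.sum_divisorsAntidiagonal (fun a _ => G a)
      rw [h4]
      have h5 : ∑ a ∈ k.divisors, G a ≤ ∑ a ∈ k.primeFactors, Real.log a / Real.log X := by
        have h6 : ∑ a ∈ k.divisors, G a = ∑ a ∈ k.divisors.filter (fun a => a.Prime ∧ a ≤ X),
            Real.log a / Real.log X := by
          rw [sum_filter]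
        rw [h6]
        refine sum_le_sum_of_subset_of_nonneg (fun a ha => ?_) fun a ha _ => ?_
        · obtain ⟨ha1, ha2, _⟩ := mem_filter.1 ha
          exact Nat.mem_primeFactors.2 ⟨ha2, (Nat.mem_divisors.1 ha1).1, by omega⟩
        · have : (1 : ℝ) ≤ a := by exact_mod_cast (Nat.prime_of_mem_primeFactors ha).one_lt.le
          exact div_nonneg (Real.log_nonneg this) hlX.le
      refine h5.trans ?_
      have e1 : (1 + Real.log M / Real.log X) * Real.log X = Real.log X + Real.log M := by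
        field_simp
      rw [← sum_div, div_le_iff₀ hlX, e1]
      have h7 := sum_log_primeFactors k hk1
      have h8 : Real.log k ≤ Real.log X + Real.log M := by
        rw [← Real.log_mul (by linarith) (by linarith)]
        refine Real.log_le_log (by linarith) ?_
        exact_mod_cast hk2
      linarith
    have h9 : 0 ≤ ∑ x ∈ k.divisorsAntidiagonal, A ^ 2 * (G x.1 * ‖c x.2‖ ^ 2) :=
      sum_nonneg fun x _ => by
        have := hG0 x.1
        positivity
    calc ‖cv α c k‖ ^ 2 ≤ (∑ x ∈ k.divisorsAntidiagonal, A * G x.1 * ‖c x.2‖) ^ 2 :=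
          pow_le_pow_left₀ (norm_nonneg _) h1 2
      _ ≤ _ := h2
      _ ≤ (1 + Real.log M / Real.log X) * ∑ x ∈ k.divisorsAntidiagonal, A ^ 2 * (G x.1 * ‖c x.2‖ ^ 2) :=
          mul_le_mul_of_nonneg_right h3 h9
      _ = _ := by rw [← mul_sum]
  -- the double sum
  have hdb : ∑ k ∈ Icc 1 (X * M), (∑ x ∈ k.divisorsAntidiagonal, G x.1 * ‖c x.2‖ ^ 2) / k ≤
      (∑ a ∈ Icc 1 X, G a / a) * N2 M c := by
    set F : ℕ × ℕ → ℝ := fun x => (G x.1 / x.1) * (‖c x.2‖ ^ 2 / x.2) with hF
    have hF0 : ∀ x, 0 ≤ F x := fun x => by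
      have := hG0 x.1
      simp only [hF]
      positivity
    have h1 : ∑ k ∈ Icc 1 (X * M), (∑ x ∈ k.divisorsAntidiagonal, G x.1 * ‖c x.2‖ ^ 2) / k =
        ∑ k ∈ Icc 1 (X * M), ∑ x ∈ k.divisorsAntidiagonal, F x := by
      refine sum_congr rfl fun k hk => ?_
      rw [sum_div]
      refine sum_congr rfl fun x hx => ?_
      have h2 := (Nat.mem_divisorsAntidiagonal.1 hx).1
      simp only [hF]
      rw [← h2]
      push_cast
      rw [div_mul_div_comm]
    rw [h1, ← sum_biUnion]
    · have h3 : ∑ x ∈ (Icc 1 (X * M)).biUnion (fun k => k.divisorsAntidiagonal), F x =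
          ∑ x ∈ ((Icc 1 (X * M)).biUnion (fun k => k.divisorsAntidiagonal)).filter (fun x => x ∈ Icc 1 X ×ˢ Icc 1 M),
            F x := by
        rw [sum_filter]
        refine sum_congr rfl fun x hx => ?_
        split_ifs with h
        · rfl
        · obtain ⟨k, hk, hxk⟩ := mem_biUnion.1 hx
          obtain ⟨h4, h5⟩ := Nat.mem_divisorsAntidiagonal.1 hxk
          have h6 : 1 ≤ x.1 := by
            rcases Nat.eq_zero_or_pos x.1 with h7 | h7
            · rw [h7, zero_mul] at h4
              exact absurd h4.symm h5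
            · exact h7
          have h7 : 1 ≤ x.2 := by
            rcases Nat.eq_zero_or_pos x.2 with h7 | h7
            · rw [h7, mul_zero] at h4
              exact absurd h4.symm h5
            · exact h7
          simp only [hF]
          by_cases h8 : x.1 ≤ X
          · have h9 : M < x.2 := by
              by_contra h10
              exact h (mem_product.2 ⟨mem_Icc.2 ⟨h6, h8⟩, mem_Icc.2 ⟨h7, by omega⟩⟩)
            rw [hc _ h9]
            simp
          · have h9 : G x.1 = 0 := by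
              simp only [hG]
              rw [if_neg (fun h10 => h8 h10.2)]
            rw [h9]
            simp
      rw [h3]
      have h4 : ∑ x ∈ ((Icc 1 (X * M)).biUnion (fun k => k.divisorsAntidiagonal)).filter (fun x => x ∈ Icc 1 X ×ˢ Icc 1 M),
            F x ≤ ∑ x ∈ Icc 1 X ×ˢ Icc 1 M, F x :=
        sum_le_sum_of_subset_of_nonneg (fun x hx => (mem_filter.1 hx).2) fun x _ _ => hF0 x
      refine h4.trans (le_of_eq ?_)
      rw [sum_product, sum_mul]
      refine sum_congr rfl fun a _ => ?_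
      unfold N2
      rw [mul_sum]
    · intro k _ k' _ hkk
      rw [Function.onFun, Finset.disjoint_left]
      intro x hx hx'
      apply hkk
      rw [← (Nat.mem_divisorsAntidiagonal.1 hx).1, (Nat.mem_divisorsAntidiagonal.1 hx').1]
  have hGs : ∑ a ∈ Icc 1 X, G a / a ≤ 1 + C / Real.log 2 := by
    have h1 : ∑ a ∈ Icc 1 X, G a / a = (∑ p ∈ (Icc 1 X).filter Nat.Prime, Real.log p / p) / Real.log X := by
      rw [sum_filter, sum_div]
      refine sum_congr rfl fun a ha => ?_
      have h2 := (mem_Icc.1 ha).2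
      simp only [hG]
      by_cases h3 : a.Prime
      · rw [if_pos ⟨h3, h2⟩, if_pos h3]
        rw [div_right_comm]
      · rw [if_neg (fun h4 => h3 h4.1), if_neg h3]
        simp
    rw [h1, div_le_iff₀ hlX]
    refine (hC X (by omega)).trans ?_
    have h4 : C ≤ C / Real.log 2 * Real.log X := by
      rw [div_mul_eq_mul_div, le_div_iff₀ hl2]
      exact mul_le_mul_of_nonneg_left hlX2 hC0
    linarith
  have hN0 : 0 ≤ N2 M c := by
    unfold N2
    positivity
  have hfac : 0 ≤ 1 + Real.log M / Real.log X := by positivity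
  calc N2 (X * M) (cv α c) = ∑ k ∈ Icc 1 (X * M), ‖cv α c k‖ ^ 2 / k := rfl
    _ ≤ ∑ k ∈ Icc 1 (X * M), (1 + Real.log M / Real.log X) *
      (A ^ 2 * ∑ x ∈ k.divisorsAntidiagonal, G x.1 * ‖c x.2‖ ^ 2) / k := by
        refine sum_le_sum fun k hk => ?_
        have := hpt k hk
        gcongr
    _ = (1 + Real.log M / Real.log X) * A ^ 2 *
        ∑ k ∈ Icc 1 (X * M), (∑ x ∈ k.divisorsAntidiagonal, G x.1 * ‖c x.2‖ ^ 2) / k := by
        rw [mul_sum]
        refine sum_congr rfl fun k _ => ?_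
        ring
    _ ≤ (1 + Real.log M / Real.log X) * A ^ 2 * ((∑ a ∈ Icc 1 X, G a / a) * N2 M c) := by
        exact mul_le_mul_of_nonneg_left hdb (by positivity)
    _ ≤ (1 + Real.log M / Real.log X) * A ^ 2 * ((1 + C / Real.log 2) * N2 M c) := by
        refine mul_le_mul_of_nonneg_left ?_ (by positivity)
        exact mul_le_mul_of_nonneg_right hGs hN0
    _ = _ := by ring

end Pool.Agent.Q198.UM
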