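import Pool.Agent.Q97.UM.Stm12
import Pool.Agent.Q198.UM.PRM

/-!
# Project UM5 (helper97), jobs BM and TE
-/

set_option autoImplicit false
set_option linter.all false

namespace Pool.Agent.Q198.UM

open Finset
open Pool.Agent.Q97.UM

open Classical in
theorem t_BM : S_BM := by
  obtain ⟨C, hC0, hC⟩ := mert_le
  have hl2 : 0 < Real.log 2 := Real.log_pos (by norm_num)
  refine ⟨3 + C / Real.log 2, by
    have : 0 ≤ C / Real.log 2 := by positivity
    linarith, fun D j hD => ?_⟩
  set w := D * Real.exp (-((j + 1 : ℕ) : ℝ)) with hw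
  have hw0 : 0 ≤ w := by positivity
  have hX1 : XB D (j + 1) = Real.exp w := rfl
  have hX0 : XB D j = Real.exp (Real.exp 1 * w) := by
    unfold XB
    rw [hw]
    congr 1
    have : Real.exp (-(j : ℝ)) = Real.exp 1 * Real.exp (-((j + 1 : ℕ) : ℝ)) := by
      rw [← Real.exp_add]
      congr 1
      push_cast
      ring
    rw [this]
    ring
  set t := max w (Real.log 2) with ht
  have ht0 : 0 < t := lt_max_of_lt_right hl2
  have ht2 : Real.log 2 ≤ t := le_max_right _ _
  have hpt : ∀ p ∈ PB D j, t ≤ Real.log p := by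
    intro p hp
    obtain ⟨hp1, hp2, hp3⟩ := mem_filter.1 hp
    refine max_le ?_ ?_
    · rw [hX1] at hp3
      exact (Real.le_log_iff_exp_le ((Real.exp_pos _).trans hp3)).2 hp3.le
    · refine Real.log_le_log (by norm_num) ?_
      exact_mod_cast hp2.two_le
  set N := ⌊XB D j⌋₊ with hN
  have hXB1 : 1 ≤ XB D j := by
    rw [hX0]
    exact Real.one_le_exp (by positivity)
  have hN1 : 1 ≤ N := Nat.le_floor (by exact_mod_cast hXB1)
  have hlogN : Real.log N ≤ Real.exp 1 * w := by
    have h1 : (N : ℝ) ≤ XB D j := Nat.floor_le (by linarith)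
    have h2 : (0 : ℝ) < N := by exact_mod_cast hN1
    have h3 := Real.log_le_log h2 h1
    rwa [hX0, Real.log_exp] at h3
  have he : Real.exp 1 ≤ 3 := Real.exp_one_lt_three.le
  calc ∑ p ∈ PB D j, (1 : ℝ) / p ≤ ∑ p ∈ PB D j, (1 / t) * (Real.log p / p) := by
        refine sum_le_sum fun p hp => ?_
        have h1 := hpt p hp
        have h2 : (0 : ℝ) < p := by
          obtain ⟨_, hp2, _⟩ := mem_filter.1 hp
          exact_mod_cast hp2.pos
        rw [one_div_mul_eq_div, div_div, div_le_div_iff₀ h2 (by positivity)]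
        nlinarith
    _ ≤ ∑ p ∈ (Finset.Icc 1 N).filter Nat.Prime, (1 / t) * (Real.log p / p) := by
        refine sum_le_sum_of_subset_of_nonneg (fun p hp => ?_) fun p hp _ => ?_
        · obtain ⟨hp1, hp2, hp3⟩ := mem_filter.1 hp
          exact mem_filter.2 ⟨hp1, hp2⟩
        · have h1 : (1 : ℝ) ≤ p := by exact_mod_cast (mem_Icc.1 (mem_filter.1 hp).1).1
          have := Real.log_nonneg h1
          positivity
    _ = (1 / t) * ∑ p ∈ (Finset.Icc 1 N).filter Nat.Prime, (Real.log p / p) := by rw [mul_sum]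
    _ ≤ (1 / t) * (Real.log N + C) := mul_le_mul_of_nonneg_left (hC N hN1) (by positivity)
    _ ≤ (1 / t) * (3 * t + C / Real.log 2 * t) := by
        refine mul_le_mul_of_nonneg_left ?_ (by positivity)
        have h1 : w ≤ t := le_max_left _ _
        have h2 : Real.exp 1 * w ≤ 3 * t := mul_le_mul he h1 hw0 (by norm_num)
        have h3 : C ≤ C / Real.log 2 * t := by
          rw [div_mul_eq_mul_div, le_div_iff₀ hl2]
          exact mul_le_mul_of_nonneg_left ht2 hC0
        linarith
    _ = _ := by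
        rw [← add_mul, mul_comm, mul_assoc, mul_one_div_cancel ht0.ne', mul_one]

end Pool.Agent.Q198.UM
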